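import Mathlib

set_option autoImplicit false

open MeasureTheory Set Filter Topology

namespace Pool.Agent.Results.MP_ee56ef_an.AllComposite

/-- The achievement set of the multigeometric series `(k_1,…,k_m; 1/n)`: all subsums of the
family `k_i / n^(j+1)`, `i` in `Fin m`, `j = 0,1,2,…`. -/
def achievementSet (n : ℕ) {m : ℕ} (k : Fin m → ℕ) : Set ℝ :=
  {s | ∃ A : Set (Fin m × ℕ),
    s = ∑' p : Fin m × ℕ, A.indicator (fun p => (k p.1 : ℝ) / (n : ℝ) ^ (p.2 + 1)) p}

/-- The set of distinct subsums of `k_1,…,k_m`. -/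
def subsums {m : ℕ} (k : Fin m → ℕ) : Finset ℕ :=
  Finset.univ.image (fun S : Finset (Fin m) => ∑ i ∈ S, k i)

/-! ### The measure of the achievement set -/

/-- subsum sets of summable families are compact -/
theorem isCompact_subsums {ι : Type*} (x : ι → ℝ) (hx : Summable x) (h0 : ∀ i, 0 ≤ x i) :
    IsCompact {s : ℝ | ∃ A : Set ι, s = ∑' i, A.indicator x i} := by
  have hc : Continuous (fun ε : ι → Bool => ∑' i, (if ε i = true then x i else 0)) := by
    refine continuous_tsum (u := x) ?_ hx ?_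
    · intro i
      have : (fun ε : ι → Bool => (if ε i = true then x i else 0))
          = (fun b : Bool => (if b = true then x i else 0)) ∘ (fun ε : ι → Bool => ε i) := rfl
      rw [this]
      exact (continuous_of_discreteTopology).comp (continuous_apply i)
    · intro i ε
      split_ifs
      · simp [abs_of_nonneg (h0 i)]
      · simpa using h0 i
  have : {s : ℝ | ∃ A : Set ι, s = ∑' i, A.indicator x i}
      = Set.range (fun ε : ι → Bool => ∑' i, (if ε i = true then x i else 0)) := by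
    ext s
    constructor
    · rintro ⟨A, rfl⟩
      classical
      refine ⟨fun i => decide (i ∈ A), ?_⟩
      refine tsum_congr fun i => ?_
      by_cases hi : i ∈ A <;> simp [hi]
    · rintro ⟨ε, rfl⟩
      refine ⟨{i | ε i = true}, ?_⟩
      refine tsum_congr fun i => ?_
      by_cases hi : ε i = true <;> simp [hi]
  rw [this]
  exact isCompact_range hc

section

variable (n : ℕ) {m : ℕ} (k : Fin m → ℕ)

/-- the integers `∑ n^j d_j` with `N` digits `d_j` in the set of the subsums -/
def F : ℕ → Finset ℕ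
  | 0 => {0}
  | N + 1 => (F N ×ˢ subsums k).image (fun p => n * p.1 + p.2)

variable {n}

theorem summable_kk (hn : 2 ≤ n) :
    Summable (fun p : Fin m × ℕ => (k p.1 : ℝ) / (n : ℝ) ^ (p.2 + 1)) := by
  have hn1 : (1 : ℝ) < n := by exact_mod_cast hn
  have h : Summable (fun j : ℕ => (1 : ℝ) / (n : ℝ) ^ (j + 1)) := by
    have := (summable_geometric_of_lt_one (r := (1 / n : ℝ)) (by positivity)
      (by rw [div_lt_one (by linarith)]; exact hn1)).mul_right (1 / n : ℝ)
    refine this.congr fun j => ?_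
    rw [one_div_pow, pow_succ, one_div_mul_one_div]
  have h2 := Summable.mul_of_nonneg (f := fun i : Fin m => (k i : ℝ))
    (g := fun j : ℕ => (1 : ℝ) / (n : ℝ) ^ (j + 1)) (Summable.of_finite) h
    (fun i => by positivity) (fun j => by positivity)
  refine h2.congr fun p => ?_
  ring

theorem mem_of_F (hn : 2 ≤ n) (N : ℕ) : ∀ z ∈ F n k N, ∃ A : Finset (Fin m × ℕ),
    (∀ p ∈ A, p.2 < N) ∧
    (z : ℝ) / n ^ N = ∑ p ∈ A, (k p.1 : ℝ) / (n : ℝ) ^ (p.2 + 1) := by
  classical
  have hn0 : (n : ℝ) ≠ 0 := by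
    have : (0 : ℝ) < n := by exact_mod_cast (by omega : 0 < n)
    exact this.ne'
  induction N with
  | zero =>
    intro z hz
    simp only [F, Finset.mem_singleton] at hz
    subst hz
    exact ⟨∅, by simp, by simp⟩
  | succ N ih =>
    intro z hz
    simp only [F, Finset.mem_image, Finset.mem_product] at hz
    obtain ⟨⟨a, d⟩, ⟨ha, hd⟩, rfl⟩ := hz
    obtain ⟨A, hA, hAs⟩ := ih a ha
    simp only [subsums, Finset.mem_image, Finset.mem_univ, true_and] at hd
    obtain ⟨S, hS⟩ := hd
    refine ⟨A ∪ S.image (fun i => (i, N)), ?_, ?_⟩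
    · intro p hp
      simp only [Finset.mem_union, Finset.mem_image] at hp
      rcases hp with hp | ⟨i, -, rfl⟩
      · exact Nat.lt_succ_of_lt (hA p hp)
      · exact Nat.lt_succ_self N
    · rw [Finset.sum_union, ← hAs, Finset.sum_image (fun i _ j _ h => by simpa using h)]
      · dsimp only
        rw [← Finset.sum_div, ← hS]
        push_cast
        rw [pow_succ]
        field_simp
      · rw [Finset.disjoint_left]
        intro p hp hq
        simp only [Finset.mem_image] at hq
        obtain ⟨i, -, rfl⟩ := hq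
        exact absurd (hA _ hp) (lt_irrefl _)

theorem mem_ach (hn : 2 ≤ n) (N : ℕ) (z : ℕ) (hz : z ∈ F n k N) :
    (z : ℝ) / n ^ N ∈ achievementSet n k := by
  classical
  obtain ⟨A, -, hA⟩ := mem_of_F k hn N z hz
  refine ⟨(A : Set (Fin m × ℕ)), ?_⟩
  rw [hA]
  rw [tsum_eq_sum (s := A)]
  · refine Finset.sum_congr rfl fun p hp => ?_
    simp [hp]
  · intro p hp
    simp [hp]

theorem vol_thick (hn : 2 ≤ n) (N : ℕ) (hc : (F n k N).card = n ^ N) (δ : ℝ)
    (hδ : 1 / (n : ℝ) ^ N ≤ δ) :
    1 ≤ volume (Metric.cthickening δ (achievementSet n k)) := by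
  have hnN : (0 : ℝ) < (n : ℝ) ^ N := by
    have : (0 : ℝ) < n := by exact_mod_cast (by omega : 0 < n)
    positivity
  have hsub : (⋃ z ∈ F n k N, Ico ((z : ℝ) / n ^ N) (((z : ℝ) + 1) / n ^ N))
      ⊆ Metric.cthickening δ (achievementSet n k) := by
    intro y hy
    simp only [Set.mem_iUnion] at hy
    obtain ⟨z, hz, hy⟩ := hy
    refine Metric.mem_cthickening_of_dist_le y ((z : ℝ) / n ^ N) δ _ (mem_ach k hn N z hz) ?_
    rw [Real.dist_eq, abs_of_nonneg (by linarith [hy.1])]
    have := hy.2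
    rw [add_div] at this
    linarith
  have hvol : volume (⋃ z ∈ F n k N, Ico ((z : ℝ) / n ^ N) (((z : ℝ) + 1) / n ^ N)) = 1 := by
    rw [measure_biUnion_finset]
    · have : ∀ z ∈ F n k N, volume (Ico ((z : ℝ) / n ^ N) (((z : ℝ) + 1) / n ^ N))
          = ENNReal.ofReal (1 / n ^ N) := by
        intro z _
        rw [Real.volume_Ico]
        congr 1
        ring
      rw [Finset.sum_congr rfl this, Finset.sum_const, hc, nsmul_eq_mul]
      rw [← ENNReal.ofReal_natCast, ← ENNReal.ofReal_mul (by positivity)]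
      push_cast
      rw [mul_one_div_cancel hnN.ne']
      simp
    · intro z _ w _ hzw
      rw [Function.onFun, Set.disjoint_left]
      intro y hy1 hy2
      rcases lt_or_gt_of_ne hzw with h | h
      · have h' : (z : ℝ) + 1 ≤ w := by exact_mod_cast h
        have := div_le_div_of_nonneg_right h' hnN.le
        linarith [hy1.2, hy2.1]
      · have h' : (w : ℝ) + 1 ≤ z := by exact_mod_cast h
        have := div_le_div_of_nonneg_right h' hnN.le
        linarith [hy2.2, hy1.1]
    · intro z _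
      exact measurableSet_Ico
  calc (1 : ENNReal) = _ := hvol.symm
    _ ≤ _ := measure_mono hsub

theorem vol_ach (hn : 2 ≤ n) (hc : ∀ N, (F n k N).card = n ^ N) :
    1 ≤ volume (achievementSet n k) := by
  have hcomp : IsCompact (achievementSet n k) :=
    isCompact_subsums _ (summable_kk k hn) (fun p => by positivity)
  have hn1 : (1 : ℝ) < n := by exact_mod_cast hn
  have ht := tendsto_measure_cthickening_of_isCompact (μ := (volume : Measure ℝ)) hcomp
  have ht' : Tendsto (fun r => volume (Metric.cthickening r (achievementSet n k))) (𝓝[>] 0)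
      (𝓝 (volume (achievementSet n k))) := ht.mono_left nhdsWithin_le_nhds
  refine ge_of_tendsto ht' ?_
  filter_upwards [self_mem_nhdsWithin] with δ hδ
  obtain ⟨N, hN⟩ := exists_pow_lt_of_lt_one (show (0 : ℝ) < δ from hδ)
    (show (1 / n : ℝ) < 1 by rw [div_lt_one (by linarith)]; exact hn1)
  refine vol_thick k hn N (hc N) δ ?_
  rw [one_div_pow] at hN
  exact hN.le

end

/-! ### The digits `x + p q y`, `x < p`, `y < b`, in the base `n = q r = p b` -/

section

variable {n p q r b m : ℕ} {k : Fin m → ℕ}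

/-- a multiple of `p` between `-p` and `p` is zero -/
theorem zero_of_dvd {p x x' : ℕ} (hx : x < p) (hx' : x' < p) (h : (p : ℤ) ∣ (x : ℤ) - x') :
    x = x' := by
  have h1 := Int.eq_zero_of_abs_lt_dvd h (by rw [abs_lt]; constructor <;> omega)
  omega

/-- differences of the sums -/
theorem diff_F (hpn : p ∣ n) (hk : ∀ d ∈ subsums k, ∃ x < p, ∃ y < b, d = x + p * q * y)
    (N : ℕ) : ∀ z ∈ F n k N, ∀ z' ∈ F n k N, ∃ u w : ℤ, ((p : ℤ) ∣ u → (n : ℤ) ∣ u) ∧
      (z : ℤ) - z' = u + p * q * w := by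
  cases N with
  | zero =>
    intro z hz z' hz'
    simp only [F, Finset.mem_singleton] at hz hz'
    subst hz hz'
    exact ⟨0, 0, fun _ => dvd_zero _, by simp⟩
  | succ N =>
    intro z hz z' hz'
    simp only [F, Finset.mem_image, Finset.mem_product] at hz hz'
    obtain ⟨⟨a, d⟩, ⟨-, hd⟩, rfl⟩ := hz
    obtain ⟨⟨a', d'⟩, ⟨-, hd'⟩, rfl⟩ := hz'
    dsimp only at hd hd' ⊢
    obtain ⟨x, hx, y, -, rfl⟩ := hk d hd
    obtain ⟨x', hx', y', -, rfl⟩ := hk d' hd'
    refine ⟨((x : ℤ) - x') + n * ((a : ℤ) - a'), (y : ℤ) - y', ?_, by push_cast; ring⟩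
    intro h
    have hpn' : (p : ℤ) ∣ n := by exact_mod_cast hpn
    have h1 : (p : ℤ) ∣ (x : ℤ) - x' := (dvd_add_left (hpn'.mul_right _)).1 h
    rw [zero_of_dvd hx hx' h1, sub_self, zero_add]
    exact dvd_mul_right _ _

/-- all the sums are different -/
theorem inj_F (hp : p.Prime) (hq0 : 0 < q) (hqr : n = q * r) (hpb : n = p * b) (hr0 : 0 < r)
    (hpr : ¬ p ∣ r)
    (hk : ∀ d ∈ subsums k, ∃ x < p, ∃ y < b, d = x + p * q * y)
    (N : ℕ) : ∀ z ∈ F n k N, ∀ z' ∈ F n k N, ∀ d ∈ subsums k, ∀ d' ∈ subsums k,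
      n * z + d = n * z' + d' → z = z' ∧ d = d' := by
  intro z hz z' hz' d hd d' hd' h
  have hpn : p ∣ n := ⟨b, hpb⟩
  obtain ⟨u, w, hu, hzz⟩ := diff_F hpn hk N z hz z' hz'
  obtain ⟨x, hx, y, hy, rfl⟩ := hk d hd
  obtain ⟨x', hx', y', hy', rfl⟩ := hk d' hd'
  have hpZ : (p : ℤ) ≠ 0 := by exact_mod_cast hp.ne_zero
  have hqZ : (q : ℤ) ≠ 0 := by exact_mod_cast hq0.ne'
  have hrZ : (r : ℤ) ≠ 0 := by exact_mod_cast hr0.ne'
  have h' : (n : ℤ) * z + (x + p * q * y) = n * z' + (x' + p * q * y') := by exact_mod_cast h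
  have e1 : (n : ℤ) * (u + p * q * w) + ((x : ℤ) - x') + p * q * ((y : ℤ) - y') = 0 := by
    rw [← hzz]
    linear_combination h'
  -- the first digit
  have hxx : x = x' := by
    refine zero_of_dvd hx hx' ?_
    have hpn' : (p : ℤ) ∣ n := by exact_mod_cast hpn
    have e2 : (x : ℤ) - x' = -(n * (u + p * q * w)) - p * (q * ((y : ℤ) - y')) := by
      linear_combination e1
    rw [e2]
    exact dvd_sub ((dvd_neg).2 (hpn'.mul_right _)) (dvd_mul_right _ _)
  subst hxx
  have hnq : (n : ℤ) = q * r := by exact_mod_cast hqr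
  have hnb : (n : ℤ) = p * b := by exact_mod_cast hpb
  have e3 : (r : ℤ) * u + p * (q * r * w + ((y : ℤ) - y')) = 0 := by
    apply mul_left_cancel₀ hqZ
    rw [hnq] at e1
    linear_combination e1
  -- `p` divides `u`
  have hpu : (p : ℤ) ∣ u := by
    have h2 : (p : ℤ) ∣ r * u := by
      have e4 : (r : ℤ) * u = p * -(q * r * w + ((y : ℤ) - y')) := by linear_combination e3
      rw [e4]
      exact dvd_mul_right _ _
    rcases (Nat.prime_iff_prime_int.1 hp).dvd_or_dvd h2 with h3 | h3
    · exact absurd (by exact_mod_cast h3) hpr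
    · exact h3
  obtain ⟨u', rfl⟩ := hu hpu
  have hyy : y = y' := by
    refine zero_of_dvd hy hy' ?_
    have e5 : (y : ℤ) - y' = b * -(r * u' + p * w) := by
      apply mul_left_cancel₀ hpZ
      have e6 : (n : ℤ) * (r * u') + p * (n * w) + p * ((y : ℤ) - y') = 0 := by
        rw [hnq] at e3 ⊢
        linear_combination e3
      rw [hnb] at e6
      linear_combination e6
    rw [e5]
    exact dvd_mul_right _ _
  subst hyy
  refine ⟨?_, rfl⟩
  have hn0 : n ≠ 0 := by
    rw [hqr]
    positivity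
  exact Nat.eq_of_mul_eq_mul_left (Nat.pos_of_ne_zero hn0) (by omega)

theorem card_F (hp : p.Prime) (hq0 : 0 < q) (hqr : n = q * r) (hpb : n = p * b) (hr0 : 0 < r)
    (hpr : ¬ p ∣ r)
    (hk : ∀ d ∈ subsums k, ∃ x < p, ∃ y < b, d = x + p * q * y) (hc : (subsums k).card = n)
    (N : ℕ) : (F n k N).card = n ^ N := by
  induction N with
  | zero => simp [F]
  | succ N ih =>
    rw [F, Finset.card_image_of_injOn, Finset.card_product, ih, hc, pow_succ]
    rintro ⟨a, d⟩ ha ⟨a', d'⟩ ha' h
    simp only [Finset.coe_product, Set.mem_prod, Finset.mem_coe] at ha ha'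
    dsimp only at h ha ha'
    obtain ⟨h1, h2⟩ := inj_F hp hq0 hqr hpb hr0 hpr hk N a ha.1 a' ha'.1 d ha.2 d' ha'.2 h
    rw [h1, h2]

end

/-! ### Subsums -/

section

theorem mem_subsums {m : ℕ} {k : Fin m → ℕ} {s : ℕ} :
    s ∈ subsums k ↔ ∃ ε : Fin m → Bool, s = ∑ i, if ε i = true then k i else 0 := by
  classical
  unfold subsums
  simp only [Finset.mem_image, Finset.mem_univ, true_and]
  constructor
  · rintro ⟨S, rfl⟩
    refine ⟨fun i => decide (i ∈ S), ?_⟩
    simp only [decide_eq_true_eq]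
    rw [Finset.sum_ite_mem, Finset.univ_inter]
  · rintro ⟨ε, rfl⟩
    refine ⟨Finset.univ.filter (fun i => ε i = true), ?_⟩
    rw [Finset.sum_filter]

theorem subsums_append {m1 m2 : ℕ} (k1 : Fin m1 → ℕ) (k2 : Fin m2 → ℕ) (c s : ℕ) :
    s ∈ subsums (Fin.append k1 (fun i => c * k2 i)) ↔
      ∃ x ∈ subsums k1, ∃ y ∈ subsums k2, s = x + c * y := by
  simp only [mem_subsums]
  constructor
  · rintro ⟨ε, rfl⟩
    refine ⟨_, ⟨fun i => ε (Fin.castAdd m2 i), rfl⟩, _, ⟨fun i => ε (Fin.natAdd m1 i), rfl⟩, ?_⟩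
    rw [Fin.sum_univ_add, Finset.mul_sum]
    simp only [Fin.append_left, Fin.append_right, mul_ite, mul_zero]
  · rintro ⟨x, ⟨ε1, rfl⟩, y, ⟨ε2, rfl⟩, rfl⟩
    refine ⟨Fin.append ε1 ε2, ?_⟩
    rw [Fin.sum_univ_add, Finset.mul_sum]
    simp only [Fin.append_left, Fin.append_right, mul_ite, mul_zero]

theorem subsums_snoc {m : ℕ} (k : Fin m → ℕ) (f s : ℕ) :
    s ∈ subsums (Fin.snoc (α := fun _ => ℕ) k f : Fin (m + 1) → ℕ) ↔
      s ∈ subsums k ∨ ∃ x ∈ subsums k, s = x + f := by
  simp only [mem_subsums]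
  constructor
  · rintro ⟨ε, rfl⟩
    rw [Fin.sum_univ_castSucc]
    simp only [Fin.snoc_castSucc, Fin.snoc_last]
    by_cases h : ε (Fin.last m) = true
    · rw [if_pos h]
      exact Or.inr ⟨_, ⟨fun i => ε i.castSucc, rfl⟩, rfl⟩
    · rw [if_neg h, add_zero]
      exact Or.inl ⟨fun i => ε i.castSucc, rfl⟩
  · rintro (⟨ε, rfl⟩ | ⟨x, ⟨ε, rfl⟩, rfl⟩)
    · refine ⟨(Fin.snoc (α := fun _ => Bool) ε false : Fin (m + 1) → Bool), ?_⟩
      rw [Fin.sum_univ_castSucc]
      simp
    · refine ⟨(Fin.snoc (α := fun _ => Bool) ε true : Fin (m + 1) → Bool), ?_⟩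
      rw [Fin.sum_univ_castSucc]
      simp

theorem subsums_ones (N : ℕ) : subsums (fun _ : Fin N => 1) = Finset.range (N + 1) := by
  ext s
  rw [mem_subsums, Finset.mem_range]
  constructor
  · rintro ⟨ε, rfl⟩
    have h : ∑ i : Fin N, (if ε i = true then 1 else 0) ≤ ∑ _i : Fin N, 1 :=
      Finset.sum_le_sum fun i _ => by split_ifs <;> omega
    simp only [Finset.sum_const, Finset.card_univ, Fintype.card_fin, smul_eq_mul, mul_one] at h
    omega
  · intro hs
    refine ⟨fun i => decide (i.val < s), ?_⟩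
    simp only [decide_eq_true_eq]
    rw [← Finset.sum_filter, Finset.sum_const, smul_eq_mul, mul_one]
    rw [Fin.card_filter_val_lt]
    omega

/-- the powers of two -/
def pw (j : ℕ) : Fin j → ℕ := fun i => 2 ^ i.val

theorem pw_snoc (j : ℕ) : (Fin.snoc (α := fun _ => ℕ) (pw j) (2 ^ j) : Fin (j + 1) → ℕ) =
    pw (j + 1) := by
  funext i
  refine Fin.lastCases ?_ (fun i => ?_) i
  · simp [pw]
  · simp [pw]

theorem subsums_pw_snoc (j f : ℕ) (hj : subsums (pw j) = Finset.range (2 ^ j)) (hf : f ≤ 2 ^ j) :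
    subsums (Fin.snoc (α := fun _ => ℕ) (pw j) f : Fin (j + 1) → ℕ) =
      Finset.range (2 ^ j + f) := by
  ext s
  rw [subsums_snoc, hj]
  simp only [Finset.mem_range]
  constructor
  · rintro (h | ⟨x, hx, rfl⟩) <;> omega
  · intro h
    by_cases h1 : s < 2 ^ j
    · exact Or.inl h1
    · exact Or.inr ⟨s - f, by omega, by omega⟩

theorem subsums_pw (j : ℕ) : subsums (pw j) = Finset.range (2 ^ j) := by
  induction j with
  | zero =>
    ext s
    rw [mem_subsums]
    simp
  | succ j ih =>
    rw [← pw_snoc, subsums_pw_snoc j _ ih le_rfl, pow_succ]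
    congr 1
    ring

end

/-! ### The counterexamples -/

/-- `k` is a counterexample to the converse of Nitecki's theorem for `n`, with greatest common
divisor one and measure at least one. -/
def Cex (n : ℕ) {m : ℕ} (k : Fin m → ℕ) : Prop :=
  1 ≤ m ∧ (∀ i, 0 < k i ∧ ¬ n ∣ k i) ∧ Finset.univ.gcd k = 1 ∧ (subsums k).card = n ∧
    1 ≤ volume (achievementSet n k) ∧
    ∃ σ ∈ subsums k, ∃ τ ∈ subsums k, σ ≠ τ ∧ σ ≡ τ [MOD n]

theorem single_mem {m : ℕ} (k : Fin m → ℕ) (i : Fin m) : k i ∈ subsums k := by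
  unfold subsums
  exact Finset.mem_image.2 ⟨{i}, Finset.mem_univ _, by simp⟩

/-- the general construction -/
theorem cex {p q r b m1 m2 : ℕ} (hp : p.Prime) (hpq : p ∣ q) (hlt : p < q) (hpr : ¬ p ∣ r)
    (hr : 1 < r) (hb : p * b = q * r) (k1 : Fin m1 → ℕ) (k2 : Fin m2 → ℕ)
    (h1 : subsums k1 = Finset.range p) (h2 : subsums k2 = Finset.range b)
    (hk1 : ∀ i, 0 < k1 i) (hk2 : ∀ i, 0 < k2 i ∧ ¬ r ∣ k2 i) :
    Cex (q * r) (Fin.append k1 (fun i => p * q * k2 i)) := by
  have hp2 := hp.two_le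
  have hq0 : 0 < q := by omega
  have hpq0 : 0 < p * q := by positivity
  have hsub : subsums (Fin.append k1 (fun i => p * q * k2 i)) =
      (Finset.range p ×ˢ Finset.range b).image (fun x => x.1 + p * q * x.2) := by
    ext s
    rw [subsums_append, h1, h2]
    simp only [Finset.mem_image, Finset.mem_product, Prod.exists]
    constructor
    · rintro ⟨x, hx, y, hy, rfl⟩
      exact ⟨x, y, ⟨hx, hy⟩, rfl⟩
    · rintro ⟨x, y, ⟨hx, hy⟩, rfl⟩
      exact ⟨x, hx, y, hy, rfl⟩
  have hcard : (subsums (Fin.append k1 (fun i => p * q * k2 i))).card = q * r := by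
    rw [hsub, Finset.card_image_of_injOn, Finset.card_product, Finset.card_range,
      Finset.card_range, hb]
    rintro ⟨x, y⟩ hx ⟨x', y'⟩ hx' h
    simp only [Finset.coe_product, Finset.coe_range, Set.mem_prod, Set.mem_Iio] at hx hx'
    dsimp only at h hx hx'
    have h3 : x < p * q := lt_of_lt_of_le hx.1 (Nat.le_mul_of_pos_right p hq0)
    have h3' : x' < p * q := lt_of_lt_of_le hx'.1 (Nat.le_mul_of_pos_right p hq0)
    have h4 : (x + p * q * y) % (p * q) = (x' + p * q * y') % (p * q) := by rw [h]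
    rw [Nat.add_mul_mod_self_left, Nat.add_mul_mod_self_left, Nat.mod_eq_of_lt h3,
      Nat.mod_eq_of_lt h3'] at h4
    subst h4
    have h5 := Nat.eq_of_mul_eq_mul_left hpq0 (Nat.add_left_cancel h)
    rw [h5]
  -- `k1` contains `1`
  have hone : ∃ i, k1 i = 1 := by
    have h3 : 1 ∈ subsums k1 := by
      rw [h1, Finset.mem_range]
      omega
    unfold subsums at h3
    rw [Finset.mem_image] at h3
    obtain ⟨S, -, hS⟩ := h3
    have h4 : S.Nonempty := by
      rw [Finset.nonempty_iff_ne_empty]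
      rintro rfl
      simp at hS
    obtain ⟨i, hi⟩ := h4
    have h5 := Finset.single_le_sum (f := k1) (fun _ _ => Nat.zero_le _) hi
    have h6 := hk1 i
    exact ⟨i, by omega⟩
  obtain ⟨i1, hi1⟩ := hone
  have hn2 : 2 ≤ q * r := by nlinarith
  refine ⟨?_, ?_, ?_, hcard, ?_, ?_⟩
  · have := i1.2
    omega
  · intro i
    refine Fin.addCases (fun i => ?_) (fun i => ?_) i
    · rw [Fin.append_left]
      refine ⟨hk1 i, fun h => ?_⟩
      have h3 := single_mem k1 i
      rw [h1, Finset.mem_range] at h3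
      have h4 := Nat.le_of_dvd (hk1 i) h
      nlinarith
    · rw [Fin.append_right]
      have h3 := hk2 i
      refine ⟨Nat.mul_pos hpq0 h3.1, fun h => h3.2 ?_⟩
      have h4 : q * r ∣ q * (p * k2 i) := by
        have e : q * (p * k2 i) = p * q * k2 i := by ring
        rwa [e]
      have h5 := Nat.dvd_of_mul_dvd_mul_left hq0 h4
      exact (Nat.Coprime.dvd_mul_left ((Nat.Prime.coprime_iff_not_dvd hp).2 hpr).symm).1 h5
  · have h3 : Finset.univ.gcd (Fin.append k1 (fun i => p * q * k2 i)) ∣ 1 := by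
      have h4 := Finset.gcd_dvd (f := Fin.append k1 (fun i => p * q * k2 i))
        (Finset.mem_univ (Fin.castAdd m2 i1))
      rwa [Fin.append_left, hi1] at h4
    exact Nat.dvd_one.1 h3
  · refine vol_ach _ hn2 (card_F hp hq0 rfl hb.symm (by omega) hpr ?_ hcard)
    intro d hd
    rw [hsub, Finset.mem_image] at hd
    obtain ⟨⟨x, y⟩, hxy, rfl⟩ := hd
    rw [Finset.mem_product, Finset.mem_range, Finset.mem_range] at hxy
    exact ⟨x, hxy.1, y, hxy.2, rfl⟩
  · refine ⟨0, ?_, p * q * r, ?_, ?_, ?_⟩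
    · rw [subsums_append, h1, h2]
      refine ⟨0, by rw [Finset.mem_range]; omega, 0, ?_, by simp⟩
      rw [Finset.mem_range]
      by_contra h0
      have : b = 0 := by omega
      rw [this] at hb
      have : 0 < q * r := by positivity
      omega
    · rw [subsums_append, h1, h2]
      refine ⟨0, by rw [Finset.mem_range]; omega, r, ?_, by simp⟩
      rw [Finset.mem_range]
      obtain ⟨q', rfl⟩ := hpq
      have h3 : b = q' * r := by
        apply Nat.eq_of_mul_eq_mul_left hp.pos
        rw [hb]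
        ring
      rw [h3]
      have h4 : 1 < q' := by
        by_contra h5
        have : q' ≤ 1 := by omega
        nlinarith
      nlinarith
    · have : 0 < p * q * r := by positivity
      omega
    · rw [Nat.modEq_iff_dvd' (Nat.zero_le _), Nat.sub_zero]
      exact ⟨p, by ring⟩

/-- the numbers `n` -/
theorem factor {n : ℕ} (h2 : 2 ≤ n) (hpp : ¬ IsPrimePow n)
    (hpq : ∀ p q : ℕ, p.Prime → q.Prime → n ≠ p * q) {p : ℕ} (hp : p.Prime) (hpn : p ∣ n) :
    ∃ q r : ℕ, n = q * r ∧ p ∣ q ∧ p < q ∧ ¬ p ∣ r ∧ 1 < r := by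
  obtain ⟨e, r0, hr0, hn⟩ := Nat.exists_eq_pow_mul_and_not_dvd (by omega : n ≠ 0) p hp.ne_one
  have he : e ≠ 0 := by
    rintro rfl
    rw [pow_zero, one_mul] at hn
    exact hr0 (hn ▸ hpn)
  have hr00 : r0 ≠ 0 := by
    rintro rfl
    omega
  have hr1 : r0 ≠ 1 := by
    rintro rfl
    apply hpp
    rw [mul_one] at hn
    exact (isPrimePow_nat_iff _).2 ⟨p, e, hp, Nat.pos_of_ne_zero he, hn.symm⟩
  by_cases he1 : e = 1
  · subst he1
    rw [pow_one] at hn
    have hr0p : ¬ r0.Prime := fun h => hpq p r0 hp h hn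
    have hs := Nat.minFac_prime hr1
    obtain ⟨r, hr⟩ := Nat.minFac_dvd r0
    have hs2 := hs.two_le
    refine ⟨p * r0.minFac, r, ?_, dvd_mul_right _ _, ?_, ?_, ?_⟩
    · rw [hn, mul_assoc, ← hr]
    · have := hp.pos
      nlinarith
    · intro h
      exact hr0 (hr ▸ h.mul_left _)
    · by_contra h
      interval_cases r
      · omega
      · rw [mul_one] at hr
        exact hr0p (hr ▸ hs)
  · refine ⟨p ^ e, r0, hn, dvd_pow_self p he, ?_, hr0, by omega⟩
    calc p = p ^ 1 := (pow_one p).symm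
      _ < p ^ e := Nat.pow_lt_pow_right hp.one_lt (by omega)

/-- **The converse of Nitecki's theorem fails for every `n` that is neither a prime power nor the
product of two primes**: there are `k_1,…,k_m`, none divisible by `n`, with greatest common divisor
one and exactly `n` distinct subsums, whose multigeometric achievement set has Lebesgue measure at
least one, while two distinct subsums are congruent modulo `n`. If `n` is moreover even and
`3 * 2 ^ j < n ≤ 4 * 2 ^ j` for some `j`, for example `n = 28`, there are such `k_1 < … < k_m`. -/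
theorem result :
    (∀ n : ℕ, 2 ≤ n → ¬ IsPrimePow n → (∀ p q : ℕ, p.Prime → q.Prime → n ≠ p * q) →
      ∃ (m : ℕ) (k : Fin m → ℕ), Cex n k) ∧
    (∀ n j : ℕ, Even n → ¬ IsPrimePow n → (∀ p : ℕ, p.Prime → n ≠ 2 * p) →
      3 * 2 ^ j < n → n ≤ 4 * 2 ^ j → ∃ (m : ℕ) (k : Fin m → ℕ), StrictMono k ∧ Cex n k) := by
  constructor
  · intro n h2 hpp hpq
    have hp := Nat.minFac_prime (by omega : n ≠ 1)
    obtain ⟨q, r, hn, h3, h4, h5, h6⟩ := factor h2 hpp hpq hp (Nat.minFac_dvd n)
    set p := n.minFac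
    obtain ⟨b, hb⟩ := Nat.minFac_dvd n
    have hp2 := hp.two_le
    have hb0 : b ≠ 0 := by
      rintro rfl
      omega
    have h7 := cex hp h3 h4 h5 h6 (b := b) (by rw [← hb, hn]) (fun _ : Fin (p - 1) => 1)
      (fun _ : Fin (b - 1) => 1) (by rw [subsums_ones]; congr 1; omega)
      (by rw [subsums_ones]; congr 1; omega) (fun _ => one_pos)
      (fun _ => ⟨one_pos, fun h => by have := Nat.dvd_one.1 h; omega⟩)
    rw [← hn] at h7
    exact ⟨_, _, h7⟩
  · intro n j hev hpp hpq h3 h4
    have h2 : 2 ≤ n := by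
      have : 0 < 2 ^ j := by positivity
      omega
    obtain ⟨q, r, hn, h5, h6, h7, h8⟩ := factor h2 hpp (by
      intro p q hp hq h
      rw [h] at hev
      rcases (Nat.even_mul.1 hev) with h9 | h9
      · rw [(Nat.Prime.even_iff hp).1 h9] at h
        exact hpq q hq h
      · rw [(Nat.Prime.even_iff hq).1 h9, mul_comm] at h
        exact hpq p hp h) Nat.prime_two hev.two_dvd
    obtain ⟨b, hb⟩ := hev.two_dvd
    obtain ⟨f, hf⟩ : ∃ f, b = 2 ^ j + f := ⟨b - 2 ^ j, by omega⟩
    have hf2 : f ≤ 2 ^ j := by omega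
    have hf3 : 2 ^ j < 2 * f := by omega
    have hodd : r.Coprime 2 := ((Nat.Prime.coprime_iff_not_dvd Nat.prime_two).2 h7).symm
    have hpw : ∀ i : ℕ, ¬ r ∣ 2 ^ i := by
      intro i h
      have h9 := Nat.Coprime.eq_one_of_dvd (hodd.pow_right i) h
      omega
    have hrf : ¬ r ∣ f := by
      intro h
      have h9 : r ∣ b := by
        have h10 : r ∣ 2 * b := ⟨q, by rw [← hb, hn]; ring⟩
        exact hodd.dvd_of_dvd_mul_left h10
      rw [hf] at h9
      exact hpw _ ((Nat.dvd_add_left h).1 h9)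
    have h9 := cex Nat.prime_two h5 h6 h7 h8 (b := b) (by rw [← hb, hn]) (fun _ : Fin 1 => 1)
      (Fin.snoc (α := fun _ => ℕ) (pw j) f : Fin (j + 1) → ℕ)
      (by rw [subsums_ones])
      (by rw [subsums_pw_snoc _ _ (subsums_pw _) hf2, hf]) (fun _ => one_pos)
      (by
        intro i
        refine Fin.lastCases ?_ (fun i => ?_) i
        · rw [Fin.snoc_last]
          exact ⟨by omega, hrf⟩
        · rw [Fin.snoc_castSucc]
          exact ⟨by unfold pw; positivity, hpw _⟩)
    rw [← hn] at h9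
    refine ⟨_, _, ?_, h9⟩
    have hk2 : StrictMono (Fin.snoc (α := fun _ => ℕ) (pw j) f : Fin (j + 1) → ℕ) := by
      intro x y hxy
      induction y using Fin.lastCases with
      | last =>
        induction x using Fin.lastCases with
        | last => exact absurd hxy (lt_irrefl _)
        | cast x =>
          rw [Fin.snoc_castSucc, Fin.snoc_last]
          have hx : 2 ^ (x.val + 1) ≤ 2 ^ j := Nat.pow_le_pow_right (by norm_num) x.2
          rw [pow_succ] at hx
          unfold pw
          omega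
      | cast y =>
        induction x using Fin.lastCases with
        | last =>
          exfalso
          rw [Fin.lt_def, Fin.val_last, Fin.val_castSucc] at hxy
          have := y.2
          omega
        | cast x =>
          rw [Fin.snoc_castSucc, Fin.snoc_castSucc]
          unfold pw
          exact Nat.pow_lt_pow_right (by norm_num) hxy
    have hq0 : 0 < 2 * q := by omega
    intro x y hxy
    induction x using Fin.addCases with
    | left x =>
      induction y using Fin.addCases with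
      | left y =>
        exfalso
        rw [Fin.lt_def, Fin.val_castAdd, Fin.val_castAdd] at hxy
        have := y.2
        omega
      | right y =>
        rw [Fin.append_left, Fin.append_right]
        have h10 : 0 < (Fin.snoc (α := fun _ => ℕ) (pw j) f : Fin (j + 1) → ℕ) y := by
          induction y using Fin.lastCases with
          | last => rw [Fin.snoc_last]; omega
          | cast y => rw [Fin.snoc_castSucc]; unfold pw; positivity
        nlinarith
    | right x =>
      induction y using Fin.addCases with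
      | left y =>
        exfalso
        rw [Fin.lt_def, Fin.val_natAdd, Fin.val_castAdd] at hxy
        have := y.2
        omega
      | right y =>
        rw [Fin.append_right, Fin.append_right]
        refine Nat.mul_lt_mul_of_pos_left (hk2 ?_) hq0
        rw [Fin.lt_def, Fin.val_natAdd, Fin.val_natAdd] at hxy
        rw [Fin.lt_def]
        omega

end Pool.Agent.Results.MP_ee56ef_an.AllComposite
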